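import Mathlib

/-!
# Real-time nondeterministic machines with logarithmically many guesses

`Q_{log n}` is a proper subclass of `Q_n`, over every alphabet with at least two letters.

The separating language: words `b_1 b_2 ... b_t 0 z`, where the `b_i` are self-delimiting binary
blocks and the reversal of `z` is a suffix of a concatenation of some of the blocks, in their order.
A real-time machine with one pushdown guesses which blocks it stores.

Lower bound: let the blocks be all the pairs (name of length `l`, data bit), for an arbitrary
function `f` from the `2^l` names to bits, and let `z` list `r` of the blocks. After the part before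
`z` the machine has at most `n^c` guess strings, and what it can use of its configuration during the
remaining `|z| = O(r l)` steps are `O(r l)` bits. Choose `f` such that for each guess string at least
`2^(2^l - K)` functions lead to the same visible configuration, `K = O(r l)`. They agree at most at
`K` names, so that the computations with this guess string accept at most `K^r` of the words `z`
(every accepted word must be correct for all these functions). But there are about `2^(l r)` words
`z`, so that `2^(l r) <= n^c K^r`, which is false for `r > 2 c` and large `l`.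
-/

set_option autoImplicit false

namespace Pool.Agent.Results.MP_18af55_lc.LogGuessesStrict

/-! ### The model -/

/-- Moves of a head. -/
inductive Move
  | left
  | stay
  | right

/-- The displacement of a move. -/
def Move.offset : Move → ℤ
  | .left => -1
  | .stay => 0
  | .right => 1

/-- A nondeterministic multitape Turing machine with input alphabet `α`. It has a finite set `Q` of
states, a read-only input tape with a two-way head and `k` work tapes with two-way heads over a
finite alphabet `Γ`. The set `δ q s w` contains the actions which are allowed in state `q` when the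
input head scans `s` (`none` is the blank outside of the input word) and the work heads scan `w`.
An action gives the next state, the move of the input head, and for each work tape the symbol
written and the move of its head. -/
structure NTM (α : Type) where
  Q : Type
  Γ : Type
  k : ℕ
  finQ : Finite Q
  finΓ : Finite Γ
  blank : Γ
  start : Q
  accept : Set Q
  δ : Q → Option α → (Fin k → Γ) → Set (Q × Move × (Fin k → Γ × Move))

/-- A configuration: the state, the position of the input head, the contents of the work tapes and
the positions of their heads. -/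
@[ext]
structure Config {α : Type} (M : NTM α) where
  state : M.Q
  inputHead : ℤ
  tape : Fin M.k → ℤ → M.Γ
  head : Fin M.k → ℤ

/-- The symbol of the input tape at position `i`: the input word is written on the positions
`0, 1, ..., |x| - 1`, all other cells are blank. -/
def inputAt {α : Type} (x : List α) (i : ℤ) : Option α :=
  if 0 ≤ i then x[i.toNat]? else none

/-- The initial configuration: start state, all heads at position `0`, blank work tapes. -/
def initial {α : Type} (M : NTM α) : Config M where
  state := M.start
  inputHead := 0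
  tape := fun _ _ => M.blank
  head := fun _ => 0

/-- The symbols scanned by the work heads. -/
def scanned {α : Type} {M : NTM α} (c : Config M) : Fin M.k → M.Γ :=
  fun i => c.tape i (c.head i)

/-- The configuration after an action. -/
def act {α : Type} {M : NTM α} (c : Config M) (a : M.Q × Move × (Fin M.k → M.Γ × Move)) :
    Config M where
  state := a.1
  inputHead := c.inputHead + a.2.1.offset
  tape := fun i => Function.update (c.tape i) (c.head i) (a.2.2 i).1
  head := fun i => c.head i + (a.2.2 i).2.offset

/-- `d` is a next configuration of `c` on the input `x`. -/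
def Step {α : Type} (M : NTM α) (x : List α) (c d : Config M) : Prop :=
  ∃ a ∈ M.δ c.state (inputAt x c.inputHead) (scanned c), d = act c a

/-- In `c` the machine can choose among more than one next configuration. -/
def Nondeterministic {α : Type} (M : NTM α) (x : List α) (c : Config M) : Prop :=
  ∃ d e : Config M, Step M x c d ∧ Step M x c e ∧ d ≠ e

/-- `c 0, ..., c T` is a computation of length `T` on `x` which starts in the initial configuration
and accepts: at its end the state is accepting and the input has been read completely. -/
def Accepting {α : Type} (M : NTM α) (x : List α) (c : ℕ → Config M) (T : ℕ) : Prop :=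
  c 0 = initial M ∧ (∀ i < T, Step M x (c i) (c (i + 1))) ∧
    (c T).state ∈ M.accept ∧ (x.length : ℤ) ≤ (c T).inputHead

open Classical in
/-- The number of nondeterministic steps among the first `T` steps of a computation. -/
noncomputable def guesses {α : Type} (M : NTM α) (x : List α) (c : ℕ → Config M) (T : ℕ) : ℕ :=
  ((Finset.range T).filter fun i => Nondeterministic M x (c i)).card

/-- The class `NTIME-NONDET(t, g)` of languages over the alphabet `α`. -/
def NTimeNondet (α : Type) (t g : ℕ → ℝ) : Set (Set (List α)) :=
  {A | ∃ M : NTM α, (∀ x, x ∈ A ↔ ∃ c T, Accepting M x c T) ∧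
    ∀ x ∈ A, ∃ c T, Accepting M x c T ∧ (T : ℝ) ≤ t x.length ∧
      (guesses M x c T : ℝ) ≤ g x.length}

/-- The class `Q_g` of languages over the alphabet `α`: real time and at most `g` guesses. -/
def QClass (α : Type) (g : ℕ → ℝ) : Set (Set (List α)) :=
  NTimeNondet α (fun n => (n : ℝ)) g


/-! ### Real-time runs -/

section General

variable {α : Type}

/-- Actions of a machine. -/
abbrev Action (M : NTM α) : Type := M.Q × Move × (Fin M.k → M.Γ × Move)

theorem Move.offset_injective : Function.Injective Move.offset := by
  intro a b h
  cases a <;> cases b <;> simp_all [Move.offset]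

theorem Move.offset_le_one (a : Move) : a.offset ≤ 1 := by
  cases a <;> simp [Move.offset]

theorem Move.abs_offset_le_one (a : Move) : |a.offset| ≤ 1 := by
  cases a <;> simp [Move.offset]

theorem act_injective {M : NTM α} (c : Config M) : Function.Injective (act c) := by
  intro a b h
  have h1 := congrArg Config.state h
  have h2 := congrArg Config.inputHead h
  have h3 := congrArg Config.tape h
  have h4 := congrArg Config.head h
  simp only [act] at h1 h2 h3 h4
  refine Prod.ext h1 (Prod.ext (Move.offset_injective (by simpa using h2)) (funext fun i => ?_))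
  refine Prod.ext ?_ (Move.offset_injective ?_)
  · have := congrFun (congrFun h3 i) (c.head i)
    simpa using this
  · have := congrFun h4 i
    simpa using this

/-- The actions allowed in `c` when the input head scans the letter `s`. -/
def allowed {M : NTM α} (s : α) (c : Config M) : Set (Action M) :=
  M.δ c.state (some s) (scanned c)

/-- Runs which read a letter of `w` at each step, with the list of the actions chosen at the
nondeterministic steps. -/
inductive RT (M : NTM α) : Config M → List α → List (Action M) → Config M → Prop
  | nil (c : Config M) : RT M c [] [] c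
  | det {c : Config M} {s : α} {w : List α} {p : List (Action M)} {c' : Config M} (a : Action M)
      (ha : a ∈ allowed s c) (hR : a.2.1 = Move.right) (hs : (allowed s c).Subsingleton)
      (h : RT M (act c a) w p c') : RT M c (s :: w) p c'
  | ndet {c : Config M} {s : α} {w : List α} {p : List (Action M)} {c' : Config M} (a : Action M)
      (ha : a ∈ allowed s c) (hR : a.2.1 = Move.right) (hs : ¬ (allowed s c).Subsingleton)
      (h : RT M (act c a) w p c') : RT M c (s :: w) (a :: p) c'

theorem RT.unique {M : NTM α} {c : Config M} {w : List α} {p : List (Action M)} {c₁ c₂ : Config M}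
    (h₁ : RT M c w p c₁) (h₂ : RT M c w p c₂) : c₁ = c₂ := by
  induction h₁ with
  | nil c => cases h₂; rfl
  | det a ha hR hs h ih =>
    cases h₂ with
    | det b hb hR' hs' h' =>
      have : a = b := hs ha hb
      subst this
      exact ih h'
    | ndet b hb hR' hs' h' => exact absurd hs hs'
  | ndet a ha hR hs h ih =>
    cases h₂ with
    | det b hb hR' hs' h' => exact absurd hs' hs
    | ndet _ hb hR' hs' h' => exact ih h'

theorem RT.split {M : NTM α} {c c' : Config M} {u z : List α} {p : List (Action M)}
    (h : RT M c (u ++ z) p c') :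
    ∃ p₁ p₂ c₁, p = p₁ ++ p₂ ∧ RT M c u p₁ c₁ ∧ RT M c₁ z p₂ c' := by
  induction u generalizing c p with
  | nil => exact ⟨[], p, c, rfl, .nil c, h⟩
  | cons s u ih =>
    rw [List.cons_append] at h
    cases h with
    | det a ha hR hs h =>
      obtain ⟨p₁, p₂, c₁, rfl, h1, h2⟩ := ih h
      exact ⟨p₁, p₂, c₁, rfl, .det a ha hR hs h1, h2⟩
    | ndet a ha hR hs h =>
      obtain ⟨p₁, p₂, c₁, rfl, h1, h2⟩ := ih h
      exact ⟨a :: p₁, p₂, c₁, rfl, .ndet a ha hR hs h1, h2⟩

theorem RT.append {M : NTM α} {c c₁ c' : Config M} {u z : List α} {p₁ p₂ : List (Action M)}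
    (h1 : RT M c u p₁ c₁) (h2 : RT M c₁ z p₂ c') : RT M c (u ++ z) (p₁ ++ p₂) c' := by
  induction h1 with
  | nil c => exact h2
  | det a ha hR hs h ih => exact .det a ha hR hs (ih h2)
  | ndet a ha hR hs h ih => exact .ndet a ha hR hs (ih h2)

/-- The configurations have the same state and the same contents up to distance `m` from each work
head. -/
def Agree {M : NTM α} (m : ℕ) (c d : Config M) : Prop :=
  c.state = d.state ∧ ∀ i, ∀ z : ℤ, |z| ≤ m → c.tape i (c.head i + z) = d.tape i (d.head i + z)

theorem Agree.scanned {M : NTM α} {m : ℕ} {c d : Config M} (h : Agree m c d) :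
    scanned c = scanned d := by
  funext i
  have := h.2 i 0 (by simp)
  simpa [LogGuessesStrict.scanned] using this

theorem Agree.act {M : NTM α} {m : ℕ} {c d : Config M} (h : Agree (m + 1) c d) (a : Action M) :
    Agree m (act c a) (act d a) := by
  refine ⟨rfl, fun i z hz => ?_⟩
  simp only [LogGuessesStrict.act]
  by_cases h0 : (a.2.2 i).2.offset + z = 0
  · have e1 : c.head i + (a.2.2 i).2.offset + z = c.head i := by omega
    have e2 : d.head i + (a.2.2 i).2.offset + z = d.head i := by omega
    rw [e1, e2]
    simp
  · rw [Function.update_of_ne (by omega), Function.update_of_ne (by omega)]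
    have := h.2 i ((a.2.2 i).2.offset + z) (by
      have h1 := Move.abs_offset_le_one (a.2.2 i).2
      have h2 := abs_add_le (a.2.2 i).2.offset z
      push_cast
      omega)
    rw [add_assoc, add_assoc]
    exact this

theorem RT.agree {M : NTM α} {c c' : Config M} {w : List α} {p : List (Action M)}
    (h : RT M c w p c') : ∀ {m : ℕ} {d : Config M}, w.length ≤ m → Agree m c d →
      ∃ d', RT M d w p d' ∧ d'.state = c'.state := by
  induction h with
  | nil c =>
    intro m d _ had
    exact ⟨d, .nil d, had.1.symm⟩
  | @det c s w p c' a ha hR hs h ih =>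
    intro m d hm had
    obtain ⟨m, rfl⟩ : ∃ k, m = k + 1 := ⟨m - 1, by simp at hm; omega⟩
    have e : allowed s c = allowed s d := by
      unfold allowed
      rw [had.1, had.scanned]
    obtain ⟨d', hd', hst⟩ := ih (m := m) (by simpa using hm) (had.act a)
    exact ⟨d', .det a (e ▸ ha) hR (e ▸ hs) hd', hst⟩
  | @ndet c s w p c' a ha hR hs h ih =>
    intro m d hm had
    obtain ⟨m, rfl⟩ : ∃ k, m = k + 1 := ⟨m - 1, by simp at hm; omega⟩
    have e : allowed s c = allowed s d := by
      unfold allowed
      rw [had.1, had.scanned]
    obtain ⟨d', hd', hst⟩ := ih (m := m) (by simpa using hm) (had.act a)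
    exact ⟨d', .ndet a (e ▸ ha) hR (e ▸ hs) hd', hst⟩

/-- What is visible of a configuration within distance `m` from the work heads. -/
def view {M : NTM α} (m : ℕ) (c : Config M) : M.Q × (Fin M.k → Fin (2 * m + 1) → M.Γ) :=
  (c.state, fun i j => c.tape i (c.head i + ((j : ℤ) - m)))

theorem agree_of_view_eq {M : NTM α} {m : ℕ} {c d : Config M} (h : view m c = view m d) :
    Agree m c d := by
  have h1 := congrArg Prod.fst h
  have h2 := congrArg Prod.snd h
  refine ⟨h1, fun i z hz => ?_⟩
  have hz' := abs_le.mp hz
  have := congrFun (congrFun h2 i) ⟨(z + m).toNat, by omega⟩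
  simp only [view] at this
  have e : (((z + m).toNat : ℕ) : ℤ) - m = z := by omega
  rw [e] at this
  exact this

theorem RT.realize {M : NTM α} {c c' : Config M} {w : List α} {p : List (Action M)}
    (h : RT M c w p c') : ∀ (x : List α) (j : ℕ), c.inputHead = j → x.drop j = w →
      ∃ cc : ℕ → Config M, cc 0 = c ∧ (∀ i < w.length, Step M x (cc i) (cc (i + 1))) ∧
        cc w.length = c' ∧ c'.inputHead = ((j + w.length : ℕ) : ℤ) := by
  have key : ∀ {c : Config M} {s : α} {w : List α} {c' : Config M} (a : Action M),
      a ∈ allowed s c → a.2.1 = Move.right →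
      (∀ (x : List α) (j : ℕ), (act c a).inputHead = j → x.drop j = w →
        ∃ cc : ℕ → Config M, cc 0 = act c a ∧ (∀ i < w.length, Step M x (cc i) (cc (i + 1))) ∧
          cc w.length = c' ∧ c'.inputHead = ((j + w.length : ℕ) : ℤ)) →
      ∀ (x : List α) (j : ℕ), c.inputHead = j → x.drop j = s :: w →
        ∃ cc : ℕ → Config M, cc 0 = c ∧
          (∀ i < (s :: w).length, Step M x (cc i) (cc (i + 1))) ∧
          cc (s :: w).length = c' ∧ c'.inputHead = ((j + (s :: w).length : ℕ) : ℤ) := by
    intro c s w c' a ha hR ih x j hj hx
    have hs : x[j]? = some s := by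
      have := congrArg (fun l => l[0]?) hx
      simpa using this
    have hw : x.drop (j + 1) = w := by
      have := congrArg List.tail hx
      simpa using this
    obtain ⟨cc, h0, h1, h2, h3⟩ := ih x (j + 1) (by simp [act, hR, hj, Move.offset]) hw
    refine ⟨fun i => match i with
      | 0 => c
      | i + 1 => cc i, rfl, ?_, ?_, ?_⟩
    · intro i hi
      cases i with
      | zero =>
        refine ⟨a, ?_, h0⟩
        have : inputAt x c.inputHead = some s := by
          simp [inputAt, hj, hs]
        simp only [this]
        exact ha
      | succ i => exact h1 i (by simpa using hi)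
    · simpa using h2
    · rw [h3]
      simp only [List.length_cons]
      congr 1
      omega
  induction h with
  | nil c =>
    intro x j hj hx
    exact ⟨fun _ => c, rfl, by simp, rfl, by simpa using hj⟩
  | det a ha hR hs h ih => exact key a ha hR ih
  | ndet a ha hR hs h ih => exact key a ha hR ih

/-- Real-time runs are computations. -/
theorem accepting_of_RT {M : NTM α} {x : List α} {p : List (Action M)} {c' : Config M}
    (h : RT M (initial M) x p c') (hc : c'.state ∈ M.accept) :
    ∃ c T, Accepting M x c T := by
  obtain ⟨cc, h0, h1, h2, h3⟩ := h.realize x 0 rfl (by simp)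
  refine ⟨cc, x.length, h0, h1, ?_, ?_⟩
  · rw [h2]; exact hc
  · rw [h2, h3]; simp

theorem Step.inputHead_le {M : NTM α} {x : List α} {c d : Config M} (h : Step M x c d) :
    d.inputHead ≤ c.inputHead + 1 := by
  obtain ⟨a, _, rfl⟩ := h
  have := Move.offset_le_one a.2.1
  simp only [act]
  omega

theorem nondeterministic_iff {M : NTM α} {x : List α} {c : Config M} {s : α}
    (hs : inputAt x c.inputHead = some s) :
    Nondeterministic M x c ↔ ¬ (allowed s c).Subsingleton := by
  constructor
  · rintro ⟨d, e, ⟨a, ha, rfl⟩, ⟨b, hb, rfl⟩, hne⟩ hsub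
    rw [hs] at ha hb
    exact hne (congrArg _ (hsub ha hb))
  · intro h
    simp only [Set.Subsingleton, not_forall] at h
    obtain ⟨a, ha, b, hb, hab⟩ := h
    refine ⟨act c a, act c b, ⟨a, ?_, rfl⟩, ⟨b, ?_, rfl⟩, fun e => hab (act_injective c e)⟩
    · rw [hs]; exact ha
    · rw [hs]; exact hb

/-- In an accepting computation whose length is at most that of the input, the input head moves to
the right at each step. -/
theorem inputHead_eq {M : NTM α} {x : List α} {c : ℕ → Config M} {T : ℕ}
    (h : Accepting M x c T) (hT : T ≤ x.length) :
    T = x.length ∧ ∀ i ≤ T, (c i).inputHead = i := by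
  obtain ⟨h0, h1, _, h3⟩ := h
  have hup : ∀ i ≤ T, (c i).inputHead ≤ i := by
    intro i
    induction i with
    | zero => intro _; rw [h0]; simp [initial]
    | succ i ih =>
      intro hi
      have := (h1 i (by omega)).inputHead_le
      have := ih (by omega)
      push_cast
      omega
  have hlow : ∀ k, k ≤ T → (c T).inputHead ≤ (c (T - k)).inputHead + k := by
    intro k
    induction k with
    | zero => intro _; simp
    | succ k ih =>
      intro hk
      have h4 := (h1 (T - (k + 1)) (by omega)).inputHead_le
      have e : T - (k + 1) + 1 = T - k := by omega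
      rw [e] at h4
      have := ih (by omega)
      push_cast
      omega
  have hTe : T = x.length := by
    have := hup T le_rfl
    omega
  refine ⟨hTe, fun i hi => ?_⟩
  have a1 := hup i hi
  have a2 := hlow (T - i) (by omega)
  have e : T - (T - i) = i := by omega
  rw [e] at a2
  omega

open Classical in
theorem RT_of_accepting {M : NTM α} {x : List α} {c : ℕ → Config M} {T : ℕ}
    (h : Accepting M x c T) (hT : T ≤ x.length) :
    ∃ p c', RT M (initial M) x p c' ∧ c'.state ∈ M.accept ∧ p.length = guesses M x c T := by
  obtain ⟨hTe, hpos⟩ := inputHead_eq h hT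
  obtain ⟨h0, h1, h2, _⟩ := h
  have key : ∀ k, k ≤ T → ∃ p, RT M (c (T - k)) (x.drop (T - k)) p (c T) ∧
      p.length = ((Finset.Ico (T - k) T).filter fun i => Nondeterministic M x (c i)).card := by
    intro k
    induction k with
    | zero =>
      intro _
      refine ⟨[], ?_, ?_⟩
      · rw [Nat.sub_zero, hTe, List.drop_length]
        exact .nil _
      · simp
    | succ k ih =>
      intro hk
      obtain ⟨p, hp, hlen⟩ := ih (by omega)
      set j := T - (k + 1) with hj
      have e : T - k = j + 1 := by omega
      have hjT : j < T := by omega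
      rw [e] at hp hlen
      have hjx : j < x.length := by omega
      obtain ⟨a, ha, hstep⟩ := h1 j hjT
      have hin : inputAt x (c j).inputHead = some x[j] := by
        rw [hpos j hjT.le]
        simp [inputAt, hjx]
      have hR : a.2.1 = Move.right := by
        have e1 := hpos j hjT.le
        have e2 := hpos (j + 1) hjT
        rw [hstep] at e2
        simp only [act, e1] at e2
        apply Move.offset_injective
        simp only [Move.offset] at *
        push_cast at e2
        omega
      rw [hin] at ha
      have hdrop : x.drop j = x[j] :: x.drop (j + 1) := (List.drop_eq_getElem_cons hjx)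
      have hIco : Finset.Ico j T = insert j (Finset.Ico (j + 1) T) := by
        rw [Finset.insert_Ico_add_one_left_eq_Ico hjT]
      rw [hdrop, hIco, Finset.filter_insert]
      by_cases hn : Nondeterministic M x (c j)
      · rw [if_pos hn, Finset.card_insert_of_notMem (by simp)]
        refine ⟨a :: p, .ndet a ha hR ((nondeterministic_iff hin).mp hn) (hstep ▸ hp), ?_⟩
        simp [hlen]
      · rw [if_neg hn]
        refine ⟨p, .det a ha hR ?_ (hstep ▸ hp), hlen⟩
        by_contra hcon
        exact hn ((nondeterministic_iff hin).mpr hcon)
  obtain ⟨p, hp, hlen⟩ := key T le_rfl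
  simp only [Nat.sub_self, List.drop_zero] at hp hlen
  rw [h0] at hp
  refine ⟨p, c T, hp, h2, ?_⟩
  rw [hlen, guesses, Finset.range_eq_Ico]

end General


/-! ### The counting lemma -/

section Counting

theorem card_agree_le {Name : Type} [Fintype Name] [DecidableEq Name] (f₀ : Name → Bool)
    (F : Finset (Name → Bool)) (I : Finset Name) (hI : ∀ f ∈ F, ∀ w ∈ I, f w = f₀ w) :
    F.card * 2 ^ I.card ≤ 2 ^ Fintype.card Name := by
  have h1 : F.card ≤ Fintype.card ({w : Name // w ∉ I} → Bool) := by
    rw [← Finset.card_univ]
    refine Finset.card_le_card_of_injOn (fun f w => f w.1) (by simp) ?_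
    intro f hf g hg hfg
    funext w
    by_cases hw : w ∈ I
    · rw [hI f hf w hw, hI g hg w hw]
    · exact congrFun hfg ⟨w, hw⟩
  have h2 : Fintype.card ({w : Name // w ∉ I} → Bool) = 2 ^ (Fintype.card Name - I.card) := by
    rw [Fintype.card_fun, Fintype.card_bool]
    congr 1
    rw [Fintype.card_subtype_compl]
    simp
  calc F.card * 2 ^ I.card ≤ 2 ^ (Fintype.card Name - I.card) * 2 ^ I.card := by
        rw [← h2]; exact Nat.mul_le_mul_right _ h1
    _ = 2 ^ Fintype.card Name := by
        rw [← pow_add, Nat.sub_add_cancel (Finset.card_le_univ I)]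

open Classical in
theorem cover {Name P X : Type} [Fintype Name] [Fintype P] [Fintype X]
    (R : (Name → Bool) → P → X → Prop)
    (hfun : ∀ f p x x', R f p x → R f p x' → x = x') (r K : ℕ)
    (hK : Fintype.card P * Fintype.card X < 2 ^ K)
    (hcov : ∀ (f : Name → Bool) (S : Finset Name), S.card = r →
      ∃ p x, R f p x ∧ ∀ f', R f' p x → ∀ w ∈ S, f' w = f w) :
    (Fintype.card Name + 1 - r) ^ r ≤ Fintype.card P * K ^ r := by
  set N := Fintype.card Name with hN
  let F : P → X → Finset (Name → Bool) := fun p x => Finset.univ.filter fun f => R f p x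
  -- a function all of whose classes are large
  have h1 : ∃ f₀, ∀ p x, R f₀ p x → 2 ^ N ≤ 2 ^ K * (F p x).card := by
    by_contra hcon
    push Not at hcon
    have hsub : (Finset.univ : Finset (Name → Bool)) ⊆
        ((Finset.univ : Finset (P × X)).filter fun q => 2 ^ K * (F q.1 q.2).card < 2 ^ N).biUnion
          fun q => F q.1 q.2 := by
      intro f _
      obtain ⟨p, x, hR, hlt⟩ := hcon f
      simp only [Finset.mem_biUnion, Finset.mem_filter, Finset.mem_univ, true_and]
      exact ⟨(p, x), hlt, by simpa [F] using hR⟩
    have h2 : 2 ^ N ≤ ∑ q ∈ (Finset.univ : Finset (P × X)).filter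
        (fun q => 2 ^ K * (F q.1 q.2).card < 2 ^ N), (F q.1 q.2).card := by
      calc 2 ^ N = (Finset.univ : Finset (Name → Bool)).card := by
            rw [Finset.card_univ, Fintype.card_fun, Fintype.card_bool]
        _ ≤ _ := (Finset.card_le_card hsub).trans Finset.card_biUnion_le
    have h3 : 2 ^ K * 2 ^ N ≤ (Fintype.card P * Fintype.card X) * 2 ^ N := by
      calc 2 ^ K * 2 ^ N ≤ 2 ^ K * ∑ q ∈ (Finset.univ : Finset (P × X)).filter
            (fun q => 2 ^ K * (F q.1 q.2).card < 2 ^ N), (F q.1 q.2).card :=
            Nat.mul_le_mul_left _ h2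
        _ = ∑ q ∈ (Finset.univ : Finset (P × X)).filter
            (fun q => 2 ^ K * (F q.1 q.2).card < 2 ^ N), 2 ^ K * (F q.1 q.2).card := by
            rw [Finset.mul_sum]
        _ ≤ ∑ _q ∈ (Finset.univ : Finset (P × X)).filter
            (fun q => 2 ^ K * (F q.1 q.2).card < 2 ^ N), 2 ^ N := by
            refine Finset.sum_le_sum fun q hq => ?_
            exact (Finset.mem_filter.mp hq).2.le
        _ ≤ ∑ _q : P × X, 2 ^ N :=
            Finset.sum_le_sum_of_subset (Finset.filter_subset _ _)
        _ = (Fintype.card P * Fintype.card X) * 2 ^ N := by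
            rw [Finset.sum_const, Finset.card_univ, Fintype.card_prod, smul_eq_mul]
    exact absurd (Nat.le_of_mul_le_mul_right h3 (by positivity)) (not_le.mpr hK)
  obtain ⟨f₀, hf₀⟩ := h1
  let I : P → Finset Name := fun p => Finset.univ.filter fun w =>
    ∀ x, R f₀ p x → ∀ f', R f' p x → f' w = f₀ w
  have hI : ∀ p x, R f₀ p x → (I p).card ≤ K := by
    intro p x hR
    have h2 := card_agree_le f₀ (F p x) (I p) (by
      intro f hf w hw
      simp only [F, I, Finset.mem_filter, Finset.mem_univ, true_and] at hf hw
      exact hw x hR f hf)
    have h3 := hf₀ p x hR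
    have hpos : 0 < (F p x).card := by
      refine Finset.card_pos.mpr ⟨f₀, ?_⟩
      simpa [F] using hR
    have h4 : (F p x).card * 2 ^ (I p).card ≤ (F p x).card * 2 ^ K := by
      calc (F p x).card * 2 ^ (I p).card ≤ 2 ^ N := h2
        _ ≤ 2 ^ K * (F p x).card := h3
        _ = (F p x).card * 2 ^ K := mul_comm _ _
    exact (Nat.pow_le_pow_iff_right (by norm_num)).mp (Nat.le_of_mul_le_mul_left h4 hpos)
  let T : P → Finset (Finset Name) := fun p =>
    if ∃ x, R f₀ p x then (I p).powersetCard r else ∅
  have hsub : (Finset.univ : Finset Name).powersetCard r ⊆ (Finset.univ : Finset P).biUnion T := by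
    intro S hS
    obtain ⟨p, x, hR, hall⟩ := hcov f₀ S (Finset.mem_powersetCard.mp hS).2
    simp only [Finset.mem_biUnion, Finset.mem_univ, true_and]
    refine ⟨p, ?_⟩
    simp only [T]
    rw [if_pos ⟨x, hR⟩]
    refine Finset.mem_powersetCard.mpr ⟨fun w hw => ?_, (Finset.mem_powersetCard.mp hS).2⟩
    simp only [I, Finset.mem_filter, Finset.mem_univ, true_and]
    intro x' hR' f' hf'
    rw [hfun f₀ p x' x hR' hR] at hf'
    exact hall f' hf' w hw
  have hT : ∀ p, (T p).card ≤ K.choose r := by
    intro p
    simp only [T]
    split_ifs with h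
    · obtain ⟨x, hx⟩ := h
      rw [Finset.card_powersetCard]
      exact Nat.choose_le_choose r (hI p x hx)
    · simp
  have hchoose : N.choose r ≤ Fintype.card P * K.choose r := by
    calc N.choose r = ((Finset.univ : Finset Name).powersetCard r).card := by
          rw [Finset.card_powersetCard, Finset.card_univ]
      _ ≤ ∑ p : P, (T p).card := (Finset.card_le_card hsub).trans Finset.card_biUnion_le
      _ ≤ ∑ _p : P, K.choose r := Finset.sum_le_sum fun p _ => hT p
      _ = Fintype.card P * K.choose r := by
          rw [Finset.sum_const, Finset.card_univ, smul_eq_mul]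
  calc (N + 1 - r) ^ r ≤ N.descFactorial r := Nat.pow_sub_le_descFactorial N r
    _ = r.factorial * N.choose r := Nat.descFactorial_eq_factorial_mul_choose N r
    _ ≤ r.factorial * (Fintype.card P * K.choose r) := Nat.mul_le_mul_left _ hchoose
    _ = Fintype.card P * (r.factorial * K.choose r) := by ring
    _ = Fintype.card P * K.descFactorial r := by rw [Nat.descFactorial_eq_factorial_mul_choose]
    _ ≤ Fintype.card P * K ^ r := Nat.mul_le_mul_left _ (Nat.descFactorial_le_pow K r)

end Counting


/-! ### The real-time machine -/

section Machine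

variable {α : Type}

/-- States of the machine: at the beginning of a block, before a data letter, after a data letter
(the Boolean says whether the block is stored), and the comparison at the end. -/
inductive St
  | start
  | data (b : Bool)
  | token (b : Bool)
  | matching

instance : Finite St :=
  Finite.of_surjective
    (fun x : Option (Option (Bool × Bool)) => match x with
      | none => St.start
      | some none => St.matching
      | some (some (false, b)) => St.data b
      | some (some (true, b)) => St.token b)
    (by
      intro s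
      cases s with
      | start => exact ⟨none, rfl⟩
      | data b => exact ⟨some (some (false, b)), rfl⟩
      | token b => exact ⟨some (some (true, b)), rfl⟩
      | matching => exact ⟨some none, rfl⟩)

/-- Push the letter `s` if `b`, otherwise do nothing. -/
def upd (b : Bool) (s : α) (g : Fin 1 → Option α) : Fin 1 → Option α × Move :=
  fun i => if b then (some s, .right) else (g i, .stay)

/-- The program of the machine. -/
def program (one zero : α) : St → Option α → (Fin 1 → Option α) →
    Set (St × Move × (Fin 1 → Option α × Move))
  | _, none, _ => ∅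
  | .start, some s, g => {a | (s = one ∧ ∃ b, a = (.data b, .right, upd b s g)) ∨
      (s = zero ∧ a = (.matching, .right, fun i => (g i, .left)))}
  | .data b, some s, g => {(.token b, .right, upd b s g)}
  | .token b, some s, g => {a | (s = one ∧ a = (.data b, .right, upd b s g)) ∨
      (s = zero ∧ a = (.start, .right, upd b s g))}
  | .matching, some s, g => {a | g 0 = some s ∧ a = (.matching, .right, fun i => (g i, .left))}

/-- The machine. -/
abbrev machine [Finite α] (one zero : α) : NTM α where
  Q := St
  Γ := Option α
  k := 1
  finQ := inferInstance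
  finΓ := inferInstance
  blank := none
  start := .start
  accept := {.matching}
  δ := program one zero

variable [Finite α] {one zero : α}

/-- A configuration of the machine with stack `σ` (bottom first). -/
def conf (q : St) (j : ℤ) (σ : List α) (h : ℤ) : Config (machine one zero) where
  state := q
  inputHead := j
  tape := fun _ z => if 0 ≤ z then σ[z.toNat]? else none
  head := fun _ => h

/-- The configurations reachable by reading `w`. -/
def Reach : Config (machine one zero) → List α → Config (machine one zero) → Prop
  | c, [], c' => c' = c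
  | c, s :: w, c' => ∃ a ∈ allowed s c, a.2.1 = Move.right ∧ Reach (act c a) w c'

theorem reach_iff {c c' : Config (machine one zero)} {w : List α} :
    Reach c w c' ↔ ∃ p, RT (machine one zero) c w p c' := by
  induction w generalizing c with
  | nil =>
    constructor
    · rintro rfl
      exact ⟨[], .nil _⟩
    · rintro ⟨p, hp⟩
      cases hp
      rfl
  | cons s w ih =>
    constructor
    · rintro ⟨a, ha, hR, h⟩
      obtain ⟨p, hp⟩ := ih.mp h
      by_cases hs : (allowed s c).Subsingleton
      · exact ⟨p, .det a ha hR hs hp⟩
      · exact ⟨a :: p, .ndet a ha hR hs hp⟩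
    · rintro ⟨p, hp⟩
      cases hp with
      | det a ha hR hs h => exact ⟨a, ha, hR, ih.mpr ⟨_, h⟩⟩
      | ndet a ha hR hs h => exact ⟨a, ha, hR, ih.mpr ⟨_, h⟩⟩

theorem scanned_top (q : St) (j : ℤ) (σ : List α) :
    scanned (conf (one := one) (zero := zero) q j σ σ.length) = fun _ => none := by
  funext i
  simp [scanned, conf]

theorem act_upd (q q' : St) (j : ℤ) (σ : List α) (b : Bool) (s : α) :
    act (conf (one := one) (zero := zero) q j σ σ.length)
      (q', Move.right, upd b s (fun _ => none)) =
      conf q' (j + 1) (σ ++ if b then [s] else []) ((σ ++ if b then [s] else []).length) := by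
  cases b
  · ext1
    · rfl
    · rfl
    · simp only [act, conf, upd]
      funext i z
      by_cases hz : z = σ.length
      · subst hz
        simp
      · simp [Function.update_of_ne hz]
    · funext i
      simp [act, conf, upd, Move.offset]
  · ext1
    · rfl
    · rfl
    · simp only [act, conf, upd]
      funext i z
      by_cases hz : z = σ.length
      · subst hz
        simp
      · rw [Function.update_of_ne hz]
        by_cases h0 : 0 ≤ z
        · simp only [h0, if_true]
          by_cases h1 : z.toNat < σ.length
          · rw [List.getElem?_append_left h1]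
          · rw [List.getElem?_eq_none (by omega), List.getElem?_eq_none (by
              simp only [List.length_append, List.length_singleton]
              omega)]
        · simp [h0]
    · funext i
      simp [act, conf, upd, Move.offset]

/-- Self-delimiting code. -/
def blk (one zero : α) (ds : List α) : List α := ds.flatMap (fun d => [one, d]) ++ [zero]

theorem reach_token (h10 : one ≠ zero) (b : Bool) (ds rest : List α) (j : ℤ) (σ : List α)
    (c' : Config (machine one zero)) :
    Reach (conf (.token b) j σ σ.length) (blk one zero ds ++ rest) c' ↔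
      Reach (conf .start (j + (blk one zero ds).length) (σ ++ if b then blk one zero ds else [])
        ((σ ++ if b then blk one zero ds else []).length)) rest c' := by
  induction ds generalizing j σ with
  | nil =>
    have e : blk one zero [] ++ rest = zero :: rest := rfl
    rw [e]
    constructor
    · rintro ⟨a, ha, hR, h⟩
      unfold allowed at ha
      rw [scanned_top] at ha
      rcases ha with ⟨h0, _⟩ | ⟨_, rfl⟩
      · exact absurd h0.symm h10
      · rw [act_upd] at h
        simpa [blk] using h
    · intro h
      refine ⟨(.start, .right, upd b zero (fun _ => none)), ?_, rfl, ?_⟩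
      · unfold allowed
        rw [scanned_top]
        exact Or.inr ⟨rfl, rfl⟩
      · rw [act_upd]
        simpa [blk] using h
  | cons d ds ih =>
    have e : blk one zero (d :: ds) ++ rest = one :: d :: (blk one zero ds ++ rest) := by
      simp [blk]
    have e2 : (blk one zero (d :: ds)).length = (blk one zero ds).length + 2 := by
      simp [blk]
    have e3 : σ ++ (if b then blk one zero (d :: ds) else []) =
        ((σ ++ if b then [one] else []) ++ if b then [d] else []) ++
          if b then blk one zero ds else [] := by
      cases b <;> simp [blk]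
    rw [e, e2, e3]
    have hd : Reach (conf (.data b) (j + 1) (σ ++ if b then [one] else [])
        ((σ ++ if b then [one] else []).length)) (d :: (blk one zero ds ++ rest)) c' ↔
        Reach (conf .start (j + ((blk one zero ds).length + 2 : ℕ))
          (((σ ++ if b then [one] else []) ++ if b then [d] else []) ++
            if b then blk one zero ds else [])
          ((((σ ++ if b then [one] else []) ++ if b then [d] else []) ++
            if b then blk one zero ds else []).length)) rest c' := by
      have e4 : j + ((blk one zero ds).length + 2 : ℕ) =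
          j + 1 + 1 + (blk one zero ds).length := by
        push_cast
        ring
      rw [e4, ← ih]
      constructor
      · rintro ⟨a, ha, hR, h⟩
        unfold allowed at ha
        rw [scanned_top] at ha
        have ha' : a = (.token b, .right, upd b d (fun _ => none)) := ha
        rw [ha', act_upd] at h
        exact h
      · intro h
        refine ⟨(.token b, .right, upd b d (fun _ => none)), ?_, rfl, ?_⟩
        · unfold allowed
          rw [scanned_top]
          rfl
        · rw [act_upd]
          exact h
    rw [← hd]
    constructor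
    · rintro ⟨a, ha, hR, h⟩
      unfold allowed at ha
      rw [scanned_top] at ha
      rcases ha with ⟨_, rfl⟩ | ⟨h0, _⟩
      · rw [act_upd] at h
        exact h
      · exact absurd h0 h10
    · intro h
      refine ⟨(.data b, .right, upd b one (fun _ => none)), ?_, rfl, ?_⟩
      · unfold allowed
        rw [scanned_top]
        exact Or.inl ⟨rfl, rfl⟩
      · rw [act_upd]
        exact h

theorem reach_block (h10 : one ≠ zero) (d : α) (ds rest : List α) (j : ℤ) (σ : List α)
    (c' : Config (machine one zero)) :
    Reach (conf .start j σ σ.length) (blk one zero (d :: ds) ++ rest) c' ↔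
      ∃ b : Bool, Reach (conf .start (j + (blk one zero (d :: ds)).length)
        (σ ++ if b then blk one zero (d :: ds) else [])
        ((σ ++ if b then blk one zero (d :: ds) else []).length)) rest c' := by
  have e : blk one zero (d :: ds) ++ rest = one :: d :: (blk one zero ds ++ rest) := by
    simp [blk]
  have e2 : (blk one zero (d :: ds)).length = (blk one zero ds).length + 2 := by
    simp [blk]
  have e3 : ∀ b : Bool, σ ++ (if b then blk one zero (d :: ds) else []) =
      ((σ ++ if b then [one] else []) ++ if b then [d] else []) ++
        if b then blk one zero ds else [] := by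
    intro b
    cases b <;> simp [blk]
  have hd : ∀ b : Bool, Reach (conf (.data b) (j + 1) (σ ++ if b then [one] else [])
      ((σ ++ if b then [one] else []).length)) (d :: (blk one zero ds ++ rest)) c' ↔
      Reach (conf .start (j + ((blk one zero ds).length + 2 : ℕ))
        (σ ++ if b then blk one zero (d :: ds) else [])
        ((σ ++ if b then blk one zero (d :: ds) else []).length)) rest c' := by
    intro b
    have e4 : j + ((blk one zero ds).length + 2 : ℕ) =
        j + 1 + 1 + (blk one zero ds).length := by
      push_cast
      ring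
    rw [e4, e3, ← reach_token h10]
    constructor
    · rintro ⟨a, ha, hR, h⟩
      unfold allowed at ha
      rw [scanned_top] at ha
      have ha' : a = (.token b, .right, upd b d (fun _ => none)) := ha
      rw [ha', act_upd] at h
      exact h
    · intro h
      refine ⟨(.token b, .right, upd b d (fun _ => none)), ?_, rfl, ?_⟩
      · unfold allowed
        rw [scanned_top]
        rfl
      · rw [act_upd]
        exact h
  rw [e, e2]
  constructor
  · rintro ⟨a, ha, hR, h⟩
    unfold allowed at ha
    rw [scanned_top] at ha
    rcases ha with ⟨_, b, rfl⟩ | ⟨h0, _⟩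
    · refine ⟨b, ?_⟩
      rw [act_upd] at h
      exact (hd b).mp h
    · exact absurd h0 h10
  · rintro ⟨b, h⟩
    refine ⟨(.data b, .right, upd b one (fun _ => none)), ?_, rfl, ?_⟩
    · unfold allowed
      rw [scanned_top]
      exact Or.inl ⟨rfl, b, rfl⟩
    · rw [act_upd]
      exact (hd b).mpr h

theorem reach_blocks (h10 : one ≠ zero) (bs : List (List α)) (hbs : ∀ ds ∈ bs, ds ≠ [])
    (rest : List α) (j : ℤ) (σ : List α) (c' : Config (machine one zero)) :
    Reach (conf .start j σ σ.length) ((bs.map (blk one zero)).flatten ++ rest) c' ↔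
      ∃ cs, List.Sublist cs bs ∧
        Reach (conf .start (j + (bs.map (blk one zero)).flatten.length)
          (σ ++ (cs.map (blk one zero)).flatten)
          ((σ ++ (cs.map (blk one zero)).flatten).length)) rest c' := by
  induction bs generalizing j σ with
  | nil =>
    constructor
    · intro h
      exact ⟨[], List.Sublist.refl _, by simpa using h⟩
    · rintro ⟨cs, hcs, h⟩
      have : cs = [] := List.sublist_nil.mp hcs
      subst this
      simpa using h
  | cons ds bs ih =>
    obtain ⟨d, ds', rfl⟩ : ∃ d ds', ds = d :: ds' := by
      cases ds with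
      | nil => exact absurd rfl (hbs [] (by simp))
      | cons d ds' => exact ⟨d, ds', rfl⟩
    have ih' := fun (j : ℤ) (σ : List α) => ih (fun e he => hbs e (by simp [he])) j σ
    rw [List.map_cons, List.flatten_cons, List.append_assoc, reach_block h10]
    have e : j + ((blk one zero (d :: ds') ++ (bs.map (blk one zero)).flatten).length : ℤ) =
        j + (blk one zero (d :: ds')).length + (bs.map (blk one zero)).flatten.length := by
      rw [List.length_append]
      push_cast
      ring
    rw [e]
    constructor
    · rintro ⟨b, h⟩
      obtain ⟨cs, hcs, h'⟩ := (ih' _ _).mp h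
      cases b
      · exact ⟨cs, hcs.cons _, by simpa using h'⟩
      · refine ⟨(d :: ds') :: cs, hcs.cons_cons _, ?_⟩
        simpa [List.append_assoc] using h'
    · rintro ⟨cs, hcs, h⟩
      cases hcs with
      | cons _ hcs => exact ⟨false, (ih' _ _).mpr ⟨cs, hcs, by simpa using h⟩⟩
      | @cons_cons cs' _ _ hcs =>
        refine ⟨true, (ih' _ _).mpr ⟨cs', hcs, ?_⟩⟩
        simpa [List.append_assoc] using h

/-- In the comparison phase the word read is the reversal of a suffix of the stack. -/
theorem reach_matching (z : List α) (j : ℤ) (σ : List α) (a : ℕ) (ha : a ≤ σ.length) :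
    (∃ c', Reach (conf (one := one) (zero := zero) .matching j σ ((a : ℤ) - 1)) z c' ∧
      c'.state = St.matching) ↔ z.reverse <:+ σ.take a := by
  induction z generalizing j a with
  | nil =>
    constructor
    · intro _
      simp
    · intro _
      exact ⟨_, rfl, rfl⟩
  | cons s z ih =>
    have hact : ∀ a' : ℕ, a' + 1 ≤ σ.length → σ[a']? = some s →
        act (conf (one := one) (zero := zero) .matching j σ (((a' + 1 : ℕ) : ℤ) - 1))
          (.matching, .right, fun i => (scanned (conf (one := one) (zero := zero) .matching j σ
            (((a' + 1 : ℕ) : ℤ) - 1)) i, .left)) =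
        conf .matching (j + 1) σ ((a' : ℤ) - 1) := by
      intro a' ha' hs
      ext1
      · rfl
      · rfl
      · simp only [act, conf, scanned]
        funext i w
        rw [Function.update_apply]
        by_cases h1 : w = ((a' + 1 : ℕ) : ℤ) - 1
        · rw [if_pos h1, h1]
        · rw [if_neg h1]
      · funext i
        simp [act, conf, Move.offset]
        ring
    constructor
    · rintro ⟨c', ⟨act₀, hact₀, hR, h⟩, hst⟩
      have hact₁ : scanned (conf (one := one) (zero := zero) .matching j σ ((a : ℤ) - 1)) 0 =
          some s ∧ act₀ = (.matching, .right, fun i =>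
            (scanned (conf (one := one) (zero := zero) .matching j σ ((a : ℤ) - 1)) i, .left)) :=
        hact₀
      obtain ⟨hsc, rfl⟩ := hact₁
      obtain ⟨a', rfl⟩ : ∃ a', a = a' + 1 := by
        cases a with
        | zero => simp [scanned, conf] at hsc
        | succ a' => exact ⟨a', rfl⟩
      have hs : σ[a']? = some s := by
        simpa [scanned, conf] using hsc
      rw [hact a' ha hs] at h
      have h2 := (ih (j + 1) a' (by omega)).mp ⟨c', h, hst⟩
      have hlt : a' < σ.length := by omega
      have hs' : σ[a'] = s := by
        rw [List.getElem?_eq_getElem hlt] at hs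
        exact Option.some.inj hs
      rw [List.reverse_cons, List.take_succ_eq_append_getElem hlt, hs']
      obtain ⟨t, ht⟩ := h2
      exact ⟨t, by rw [← List.append_assoc, ht]⟩
    · intro h
      have hlen := h.length_le
      rw [List.length_reverse, List.length_cons, List.length_take] at hlen
      obtain ⟨a', rfl⟩ : ∃ a', a = a' + 1 := ⟨a - 1, by omega⟩
      have hlt : a' < σ.length := by omega
      obtain ⟨t, ht⟩ := h
      rw [List.reverse_cons, List.take_succ_eq_append_getElem hlt, ← List.append_assoc] at ht
      obtain ⟨ht1, ht2⟩ := List.append_inj' ht rfl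
      have hs : σ[a']? = some s := by
        rw [List.getElem?_eq_getElem hlt]
        simpa using ht2.symm
      obtain ⟨c', hc', hst⟩ := (ih (j + 1) a' (by omega)).mpr ⟨t, ht1⟩
      refine ⟨c', ⟨(.matching, .right, fun i => (scanned (conf (one := one) (zero := zero)
        .matching j σ (((a' + 1 : ℕ) : ℤ) - 1)) i, .left)), ?_, rfl, ?_⟩, hst⟩
      · refine ⟨?_, rfl⟩
        simpa [scanned, conf] using hs
      · rw [hact a' ha hs]
        exact hc'

/-- The words accepted by the machine. -/
theorem reach_word (h10 : one ≠ zero) (bs : List (List α)) (hbs : ∀ ds ∈ bs, ds ≠ [])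
    (z : List α) :
    (∃ c', Reach (initial (machine one zero)) ((bs.map (blk one zero)).flatten ++ zero :: z) c' ∧
      c'.state = St.matching) ↔
      ∃ cs, List.Sublist cs bs ∧ z.reverse <:+ (cs.map (blk one zero)).flatten := by
  have e0 : initial (machine one zero) = conf .start 0 [] (([] : List α).length) := by
    ext1
    · rfl
    · rfl
    · funext i w
      simp [initial, conf, machine]
    · funext i
      simp [initial, conf]
  have hmid : ∀ (j : ℤ) (σ : List α) (c' : Config (machine one zero)),
      Reach (conf .start j σ σ.length) (zero :: z) c' ↔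
        Reach (conf .matching (j + 1) σ ((σ.length : ℤ) - 1)) z c' := by
    intro j σ c'
    have hact : act (conf (one := one) (zero := zero) .start j σ σ.length)
        (.matching, .right, fun i => ((fun _ => none : Fin 1 → Option α) i, .left)) =
        conf .matching (j + 1) σ ((σ.length : ℤ) - 1) := by
      ext1
      · rfl
      · rfl
      · simp only [act, conf]
        funext i w
        rw [Function.update_apply]
        split_ifs with h1 h2 h2
        · rw [h1]
          simp
        · rfl
        · rfl
        · rfl
      · funext i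
        simp [act, conf, Move.offset]
        ring
    constructor
    · rintro ⟨a, ha, hR, h⟩
      unfold allowed at ha
      rw [scanned_top] at ha
      rcases ha with ⟨h0, _⟩ | ⟨_, rfl⟩
      · exact absurd h0.symm h10
      · rw [hact] at h
        exact h
    · intro h
      refine ⟨(.matching, .right, fun i => ((fun _ => none : Fin 1 → Option α) i, .left)), ?_,
        rfl, ?_⟩
      · unfold allowed
        rw [scanned_top]
        exact Or.inr ⟨rfl, rfl⟩
      · rw [hact]
        exact h
  rw [e0]
  constructor
  · rintro ⟨c', h, hst⟩
    obtain ⟨cs, hcs, h'⟩ := (reach_blocks h10 bs hbs _ _ _ _).mp h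
    refine ⟨cs, hcs, ?_⟩
    rw [hmid] at h'
    have := (reach_matching z _ _ _ le_rfl).mp ⟨c', h', hst⟩
    rwa [List.take_length, List.nil_append] at this
  · rintro ⟨cs, hcs, h⟩
    obtain ⟨c', hc', hst⟩ := (reach_matching (one := one) (zero := zero) z
      (0 + (bs.map (blk one zero)).flatten.length + 1) ([] ++ (cs.map (blk one zero)).flatten) _
      le_rfl).mpr (by rwa [List.take_length, List.nil_append])
    exact ⟨c', (reach_blocks h10 bs hbs _ _ _ _).mpr ⟨cs, hcs, (hmid _ _ _).mpr hc'⟩, hst⟩

end Machine


/-! ### The language and its words -/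

section Language

variable {α : Type} {one zero : α}

theorem length_blk (ds : List α) : (blk one zero ds).length = 2 * ds.length + 1 := by
  induction ds with
  | nil => simp [blk]
  | cons d ds ih =>
    have : (blk one zero (d :: ds)).length = (blk one zero ds).length + 2 := by simp [blk]
    rw [this, ih, List.length_cons]
    ring

theorem blk_injective {ds es : List α} (h : blk one zero ds = blk one zero es) : ds = es := by
  have hlen : ds.length = es.length := by
    have := congrArg List.length h
    rw [length_blk, length_blk] at this
    omega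
  induction ds generalizing es with
  | nil =>
    cases es with
    | nil => rfl
    | cons e es => simp at hlen
  | cons d ds ih =>
    cases es with
    | nil => simp at hlen
    | cons e es =>
      have e1 : ∀ (d : α) (ds : List α), blk one zero (d :: ds) = one :: d :: blk one zero ds := by
        intro d ds
        simp [blk]
      rw [e1, e1] at h
      injection h with _ h
      injection h with h1 h2
      rw [h1, ih h2 (by simpa using hlen)]

theorem mem_of_flatten_suffix (L : ℕ) (hL : 0 < L) (D : List (List α)) :
    ∀ (C : List (List α)), (∀ d ∈ D, d.length = L) → (∀ c ∈ C, c.length = L) →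
      D.flatten <:+ C.flatten → ∀ d ∈ D, d ∈ C := by
  induction D using List.reverseRecOn with
  | nil =>
    intro C _ _ _ d hd
    simp at hd
  | append_singleton D d ih =>
    intro C hD hC hsuf
    have hdL : d.length = L := hD d (by simp)
    rcases List.eq_nil_or_concat' C with rfl | ⟨C', c, rfl⟩
    · have := hsuf.length_le
      rw [List.flatten_append, List.length_append] at this
      simp only [List.flatten_cons, List.flatten_nil, List.append_nil, List.length_nil] at this
      omega
    · have hcL : c.length = L := hC c (by simp)
      obtain ⟨t, ht⟩ := hsuf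
      rw [List.flatten_append, List.flatten_append, ← List.append_assoc] at ht
      simp only [List.flatten_cons, List.flatten_nil, List.append_nil] at ht
      obtain ⟨h1, h2⟩ := List.append_inj' ht (by omega)
      intro d' hd'
      rw [List.mem_append] at hd'
      rcases hd' with hd' | hd'
      · have := ih C' (fun e he => hD e (by simp [he])) (fun e he => hC e (by simp [he]))
          ⟨t, h1⟩ d' hd'
        simp [this]
      · have : d' = d := by simpa using hd'
        rw [this, h2]
        simp

/-- The letter of a bit. -/
def sym (one zero : α) (b : Bool) : α := if b then one else zero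

theorem sym_injective (h10 : one ≠ zero) : Function.Injective (sym one zero) := by
  intro a b h
  cases a <;> cases b <;> simp_all [sym]

/-- The block of the name `w`: its bits and the data bit `f w`. -/
def content (one zero : α) {l : ℕ} (f : (Fin l → Bool) → Bool) (w : Fin l → Bool) : List α :=
  (List.ofFn w ++ [f w]).map (sym one zero)

theorem length_content {l : ℕ} (f : (Fin l → Bool) → Bool) (w : Fin l → Bool) :
    (content one zero f w).length = l + 1 := by
  simp [content]

theorem content_inj (h10 : one ≠ zero) {l : ℕ} {f f' : (Fin l → Bool) → Bool}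
    {w w' : Fin l → Bool} (h : content one zero f w = content one zero f' w') :
    w = w' ∧ f w = f' w' := by
  unfold content at h
  have h1 := List.map_injective_iff.mpr (sym_injective h10) h
  obtain ⟨h2, h3⟩ := List.append_inj' h1 rfl
  exact ⟨List.ofFn_injective h2, by simpa using h3⟩

/-- All names, in some order. -/
noncomputable def names (l : ℕ) : List (Fin l → Bool) := Finset.univ.toList

/-- The names of `S` in the same order. -/
noncomputable def namesIn {l : ℕ} (S : Finset (Fin l → Bool)) : List (Fin l → Bool) :=
  (names l).filter fun w => decide (w ∈ S)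

theorem length_names (l : ℕ) : (names l).length = 2 ^ l := by
  simp [names]

theorem length_namesIn {l : ℕ} (S : Finset (Fin l → Bool)) : (namesIn S).length = S.card := by
  classical
  have hnd : (namesIn S).Nodup := (Finset.nodup_toList _).filter _
  rw [← List.toFinset_card_of_nodup hnd]
  congr 1
  ext w
  simp [namesIn, names]

/-- The first part of the words: all blocks, and the mark. -/
noncomputable def first (one zero : α) {l : ℕ} (f : (Fin l → Bool) → Bool) : List α :=
  (((names l).map (content one zero f)).map (blk one zero)).flatten ++ [zero]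

/-- The second part of the words: the blocks of the names in `S`, reversed. -/
noncomputable def second (one zero : α) {l : ℕ} (f : (Fin l → Bool) → Bool)
    (S : Finset (Fin l → Bool)) : List α :=
  (((namesIn S).map (content one zero f)).map (blk one zero)).flatten.reverse

theorem length_flatten_blk {l : ℕ} (f : (Fin l → Bool) → Bool) (L : List (Fin l → Bool)) :
    ((L.map (content one zero f)).map (blk one zero)).flatten.length =
      L.length * (2 * l + 3) := by
  induction L with
  | nil => simp
  | cons w L ih =>
    rw [List.map_cons, List.map_cons, List.flatten_cons, List.length_append, ih, length_blk,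
      length_content, List.length_cons]
    ring

theorem length_first {l : ℕ} (f : (Fin l → Bool) → Bool) :
    (first one zero f).length = 2 ^ l * (2 * l + 3) + 1 := by
  rw [first, List.length_append, length_flatten_blk, length_names]
  simp

theorem length_second {l : ℕ} (f : (Fin l → Bool) → Bool) (S : Finset (Fin l → Bool)) :
    (second one zero f S).length = S.card * (2 * l + 3) := by
  rw [second, List.length_reverse, length_flatten_blk, length_namesIn]

/-- The language accepted by the machine. -/
def lang (one zero : α) [Finite α] : Set (List α) :=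
  {x | ∃ c T, Accepting (machine one zero) x c T}

/-- Each computation of the machine on `x` has length at most `|x|`. -/
theorem machine_realTime [Finite α] {x : List α} {c : ℕ → Config (machine one zero)} {T : ℕ}
    (h : Accepting (machine one zero) x c T) : T ≤ x.length := by
  obtain ⟨h0, h1, _, _⟩ := h
  have hR : ∀ (q : St) (s : α) (g : Fin 1 → Option α) (a : St × Move × (Fin 1 → Option α × Move)),
      a ∈ program one zero q (some s) g → a.2.1 = Move.right := by
    intro q s g a ha
    cases q with
    | start =>
      rcases ha with ⟨_, b, rfl⟩ | ⟨_, rfl⟩ <;> rfl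
    | data b =>
      have : a = _ := ha
      rw [this]
    | token b =>
      rcases ha with ⟨_, rfl⟩ | ⟨_, rfl⟩ <;> rfl
    | matching =>
      obtain ⟨_, rfl⟩ := ha
      rfl
  have hstep : ∀ d e : Config (machine one zero), Step (machine one zero) x d e →
      ∃ s, inputAt x d.inputHead = some s ∧ e.inputHead = d.inputHead + 1 := by
    rintro d e ⟨a, ha, rfl⟩
    cases hs : inputAt x d.inputHead with
    | none =>
      rw [hs] at ha
      have ha' : a ∈ program one zero d.state none (scanned d) := ha
      cases hq : d.state <;> rw [hq] at ha' <;> exact absurd ha' (by simp [program])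
    | some s =>
      rw [hs] at ha
      refine ⟨s, rfl, ?_⟩
      have := hR _ _ _ _ ha
      simp [act, this, Move.offset]
  have hpos : ∀ i ≤ T, (c i).inputHead = i := by
    intro i
    induction i with
    | zero => intro _; rw [h0]; rfl
    | succ i ih =>
      intro hi
      obtain ⟨_, _, h2⟩ := hstep _ _ (h1 i (by omega))
      rw [h2, ih (by omega)]
      push_cast
      ring
  by_contra hcon
  push Not at hcon
  obtain ⟨s, hs, _⟩ := hstep _ _ (h1 x.length hcon)
  rw [hpos x.length hcon.le] at hs
  simp [inputAt] at hs

theorem mem_lang_iff [Finite α] (h10 : one ≠ zero) {l : ℕ} (f : (Fin l → Bool) → Bool)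
    (z : List α) : first one zero f ++ z ∈ lang one zero ↔
      ∃ cs, List.Sublist cs ((names l).map (content one zero f)) ∧
        z.reverse <:+ (cs.map (blk one zero)).flatten := by
  have hne : ∀ ds ∈ (names l).map (content one zero f), ds ≠ [] := by
    intro ds hds h
    obtain ⟨w, _, rfl⟩ := List.mem_map.mp hds
    have := length_content (one := one) (zero := zero) f w
    rw [h] at this
    simp at this
  rw [← reach_word h10 _ hne z]
  have e : first one zero f ++ z =
      (((names l).map (content one zero f)).map (blk one zero)).flatten ++ zero :: z := by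
    simp [first]
  rw [e]
  constructor
  · rintro ⟨c, T, h⟩
    obtain ⟨p, c', hp, hc, _⟩ := RT_of_accepting h (machine_realTime h)
    exact ⟨c', reach_iff.mpr ⟨p, hp⟩, hc⟩
  · rintro ⟨c', h, hc⟩
    obtain ⟨p, hp⟩ := reach_iff.mp h
    exact accepting_of_RT hp hc

theorem complete [Finite α] (h10 : one ≠ zero) {l : ℕ} (f : (Fin l → Bool) → Bool)
    (S : Finset (Fin l → Bool)) :
    first one zero f ++ second one zero f S ∈ lang one zero := by
  rw [mem_lang_iff h10]
  refine ⟨(namesIn S).map (content one zero f), List.filter_sublist.map _, ?_⟩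
  rw [second, List.reverse_reverse]

theorem sound [Finite α] (h10 : one ≠ zero) {l : ℕ} (f f' : (Fin l → Bool) → Bool)
    (S : Finset (Fin l → Bool)) (h : first one zero f' ++ second one zero f S ∈ lang one zero) :
    ∀ w ∈ S, f' w = f w := by
  rw [mem_lang_iff h10] at h
  obtain ⟨cs, hcs, hsuf⟩ := h
  rw [second, List.reverse_reverse] at hsuf
  have hlen : ∀ (g : (Fin l → Bool) → Bool) (L : List (List α)),
      List.Sublist L ((names l).map (content one zero g)) →
      ∀ d ∈ L.map (blk one zero), d.length = 2 * l + 3 := by
    intro g L hL d hd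
    obtain ⟨e, he, rfl⟩ := List.mem_map.mp hd
    obtain ⟨w, _, rfl⟩ := List.mem_map.mp (hL.subset he)
    rw [length_blk, length_content]
    ring
  have key := mem_of_flatten_suffix (2 * l + 3) (by omega) _ _
    (hlen f ((namesIn S).map (content one zero f)) (List.filter_sublist.map _)) (hlen f' cs hcs)
    hsuf
  intro w hw
  have hw' : w ∈ namesIn S := by simp [namesIn, names, hw]
  have h1 := key (blk one zero (content one zero f w))
    (List.mem_map_of_mem (List.mem_map_of_mem hw'))
  obtain ⟨e, he, he'⟩ := List.mem_map.mp h1
  have h2 := blk_injective he'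
  subst h2
  obtain ⟨w', _, hw''⟩ := List.mem_map.mp (hcs.subset he)
  obtain ⟨rfl, h3⟩ := content_inj h10 hw''
  exact h3

end Language

/-! ### The lower bound -/

section LowerBound

variable {α : Type} [Finite α] {one zero : α}

/-- Lists of length at most `G` as functions. -/
def code {A : Type} (G : ℕ) (p : List A) : Fin G → Option A := fun i => p[(i : ℕ)]?

theorem code_injective {A : Type} {G : ℕ} {p p' : List A} (hp : p.length ≤ G)
    (hp' : p'.length ≤ G) (h : code G p = code G p') : p = p' := by
  apply List.ext_getElem?
  intro i
  by_cases hi : i < G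
  · exact congrFun h ⟨i, hi⟩
  · rw [List.getElem?_eq_none (by omega), List.getElem?_eq_none (by omega)]

theorem covering (h10 : one ≠ zero) (M : NTM α)
    (hM : ∀ x, x ∈ lang one zero ↔ ∃ c T, Accepting M x c T) (l r G : ℕ)
    (hG : ∀ x ∈ lang one zero, x.length = 2 ^ l * (2 * l + 3) + 1 + r * (2 * l + 3) →
      ∃ c T, Accepting M x c T ∧ T ≤ x.length ∧ guesses M x c T ≤ G) :
    ∃ a q g : ℕ, a = Nat.card (Action M) + 1 ∧ q = Nat.card M.Q ∧ g = Nat.card M.Γ ∧
      (2 ^ l + 1 - r) ^ r ≤
        2 ^ (a * G) * (a * G + q + g * (2 * (r * (2 * l + 3)) + 1) * M.k + 1) ^ r := by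
  classical
  have := M.finQ
  have := M.finΓ
  have : Finite Move := Finite.of_surjective
    (fun x : Option Bool => match x with
      | none => Move.stay
      | some true => Move.right
      | some false => Move.left)
    (by
      intro s
      cases s with
      | left => exact ⟨some false, rfl⟩
      | stay => exact ⟨none, rfl⟩
      | right => exact ⟨some true, rfl⟩)
  let _ : Fintype M.Q := Fintype.ofFinite _
  let _ : Fintype M.Γ := Fintype.ofFinite _
  let _ : Fintype (Action M) := Fintype.ofFinite _
  set m := r * (2 * l + 3) with hm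
  set a := Fintype.card (Action M) + 1 with ha
  set q := Fintype.card M.Q with hq
  set g := Fintype.card M.Γ with hg
  refine ⟨a, q, g, by rw [ha, Nat.card_eq_fintype_card], by rw [hq, Nat.card_eq_fintype_card],
    by rw [hg, Nat.card_eq_fintype_card], ?_⟩
  set K := a * G + q + g * (2 * m + 1) * M.k + 1 with hK
  let R : ((Fin l → Bool) → Bool) → (Fin G → Option (Action M)) →
      (M.Q × (Fin M.k → Fin (2 * m + 1) → M.Γ)) → Prop :=
    fun f P X => ∃ (p : List (Action M)) (c₁ : Config M), p.length ≤ G ∧ code G p = P ∧
      RT M (initial M) (first one zero f) p c₁ ∧ view m c₁ = X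
  have hP : Fintype.card (Fin G → Option (Action M)) ≤ 2 ^ (a * G) := by
    rw [Fintype.card_fun, Fintype.card_option, Fintype.card_fin, pow_mul]
    exact Nat.pow_le_pow_left Nat.lt_two_pow_self.le G
  have hX : Fintype.card (M.Q × (Fin M.k → Fin (2 * m + 1) → M.Γ)) ≤
      2 ^ (q + g * (2 * m + 1) * M.k) := by
    have e : 2 ^ (q + g * (2 * m + 1) * M.k) = 2 ^ q * ((2 ^ g) ^ (2 * m + 1)) ^ M.k := by
      rw [← pow_mul, ← pow_mul, ← pow_add, mul_assoc]
    rw [Fintype.card_prod, Fintype.card_fun, Fintype.card_fun, Fintype.card_fin, Fintype.card_fin,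
      e]
    exact Nat.mul_le_mul Nat.lt_two_pow_self.le
      (Nat.pow_le_pow_left (Nat.pow_le_pow_left Nat.lt_two_pow_self.le _) _)
  have hcard : Fintype.card (Fin G → Option (Action M)) *
      Fintype.card (M.Q × (Fin M.k → Fin (2 * m + 1) → M.Γ)) < 2 ^ K := by
    calc _ ≤ 2 ^ (a * G) * 2 ^ (q + g * (2 * m + 1) * M.k) := Nat.mul_le_mul hP hX
      _ = 2 ^ (a * G + (q + g * (2 * m + 1) * M.k)) := by rw [← pow_add]
      _ < 2 ^ K := Nat.pow_lt_pow_right (by norm_num) (by omega)
  have key := cover R (by
      rintro f P X X' ⟨p, c₁, hp, hc, hrt, rfl⟩ ⟨p', c₁', hp', hc', hrt', rfl⟩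
      have : p = p' := code_injective hp hp' (hc.trans hc'.symm)
      subst this
      rw [hrt.unique hrt']) r K hcard (by
      intro f S hS
      have hmem := complete h10 f S
      obtain ⟨c, T, hacc, hT, hgs⟩ := hG _ hmem (by
        rw [List.length_append, length_first, length_second, hS])
      obtain ⟨p, c', hp, hc', hlen⟩ := RT_of_accepting hacc hT
      obtain ⟨p₁, p₂, c₁, rfl, h1, h2⟩ := hp.split
      have hp₁ : p₁.length ≤ G := by
        rw [List.length_append] at hlen
        omega
      refine ⟨code G p₁, view m c₁, ⟨p₁, c₁, hp₁, rfl, h1, rfl⟩, ?_⟩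
      rintro f' ⟨p', c₁', hp', hcode, hrt, hview⟩
      have : p' = p₁ := code_injective hp' hp₁ hcode
      subst this
      obtain ⟨d', hd', hst⟩ := h2.agree (m := m) (by rw [length_second, hS])
        (agree_of_view_eq hview.symm)
      have hacc' := accepting_of_RT (hrt.append hd') (by rw [hst]; exact hc')
      exact sound h10 f f' S ((hM _).mpr hacc'))
  have hname : Fintype.card (Fin l → Bool) = 2 ^ l := by simp
  rw [hname] at key
  exact key.trans (Nat.mul_le_mul_right _ hP)

theorem exists_large (B r : ℕ) : ∃ l, B * (l + 1) ^ r < 2 ^ l := by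
  have h := tendsto_pow_const_div_const_pow_of_one_lt r (one_lt_two : (1 : ℝ) < 2)
  have hpos : (0 : ℝ) < 1 / (2 * ((B : ℝ) + 1)) := by positivity
  obtain ⟨n, hn, hn1⟩ := ((h.eventually_lt_const hpos).and (Filter.eventually_ge_atTop 1)).exists
  refine ⟨n - 1, ?_⟩
  have e : n - 1 + 1 = n := by omega
  rw [e]
  rw [div_lt_div_iff₀ (by positivity) (by positivity)] at hn
  have h2 : (2 : ℝ) ^ n = 2 * 2 ^ (n - 1) := by
    rw [← pow_succ', e]
  rw [h2] at hn
  have h3 : (B : ℝ) * (n : ℝ) ^ r < 2 ^ (n - 1) := by
    have : (0 : ℝ) ≤ (n : ℝ) ^ r := by positivity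
    nlinarith
  exact_mod_cast h3

theorem not_mem (h10 : one ≠ zero) (C : ℝ) :
    lang one zero ∉ QClass α (fun n => C * Real.logb 2 n + C) := by
  rintro ⟨M, hM, hbound⟩
  obtain ⟨c, hc⟩ := exists_nat_ge C
  set a := Nat.card (Action M) + 1 with ha
  set q := Nat.card M.Q with hq
  set g := Nat.card M.Γ with hg
  set r := 2 * a * c + 1 with hr
  set D := 2 * a * c + q + g * M.k * (6 * r + 1) + 1 with hD
  obtain ⟨l, hl⟩ := exists_large (2 * r + 3 * (r + 2) + 2 ^ (3 * a * c + 1) * D ^ r) r
  have hone : 1 ≤ (l + 1) ^ r := Nat.one_le_pow _ _ (by omega)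
  have hle : l + 1 ≤ (l + 1) ^ r := by
    calc l + 1 = (l + 1) ^ 1 := (pow_one _).symm
      _ ≤ (l + 1) ^ r := Nat.pow_le_pow_right (by omega) (by omega)
  have c1 : 2 * r ≤ 2 ^ l := by nlinarith [Nat.zero_le (2 ^ (3 * a * c + 1) * D ^ r * (l + 1) ^ r)]
  have c2 : 3 * (r + 2) * (l + 1) ≤ 2 ^ l := by
    have : 3 * (r + 2) * (l + 1) ≤ 3 * (r + 2) * (l + 1) ^ r := Nat.mul_le_mul_left _ hle
    nlinarith [Nat.zero_le (2 ^ (3 * a * c + 1) * D ^ r * (l + 1) ^ r),
      Nat.zero_le (2 * r * (l + 1) ^ r)]
  have c3 : 2 ^ (3 * a * c + 1) * (D * (l + 1)) ^ r < 2 ^ l := by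
    rw [mul_pow, ← mul_assoc]
    nlinarith [Nat.zero_le (3 * (r + 2) * (l + 1) ^ r), Nat.zero_le (2 * r * (l + 1) ^ r)]
  have hn : 2 ^ l * (2 * l + 3) + 1 + r * (2 * l + 3) ≤ 2 ^ (2 * l) := by
    have h1 : 1 ≤ 2 ^ l := Nat.one_le_two_pow
    calc 2 ^ l * (2 * l + 3) + 1 + r * (2 * l + 3)
        ≤ 2 ^ l * (2 * l + 3) + 2 ^ l * (2 * l + 3) + 2 ^ l * (r * (2 * l + 3)) := by
          have h2 : 1 ≤ 2 ^ l * (2 * l + 3) := Nat.one_le_iff_ne_zero.mpr (by positivity)
          have h3 : 1 * (r * (2 * l + 3)) ≤ 2 ^ l * (r * (2 * l + 3)) :=
            Nat.mul_le_mul_right _ h1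
          omega
      _ = 2 ^ l * ((r + 2) * (2 * l + 3)) := by ring
      _ ≤ 2 ^ l * (3 * (r + 2) * (l + 1)) := by
          refine Nat.mul_le_mul_left _ ?_
          nlinarith
      _ ≤ 2 ^ l * 2 ^ l := Nat.mul_le_mul_left _ c2
      _ = 2 ^ (2 * l) := by rw [two_mul, pow_add]
  obtain ⟨a', q', g', rfl, rfl, rfl, key⟩ := covering h10 M hM l r (c * (2 * l + 1)) (by
    intro x hx hxl
    obtain ⟨cc, T, h1, h2, h3⟩ := hbound x hx
    have h2' : (T : ℝ) ≤ (x.length : ℝ) := h2
    refine ⟨cc, T, h1, by exact_mod_cast h2', ?_⟩
    have hx1 : 1 ≤ x.length := by omega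
    have hx2 : x.length ≤ 2 ^ (2 * l) := hxl ▸ hn
    have hlog0 : 0 ≤ Real.logb 2 x.length :=
      Real.logb_nonneg (by norm_num) (by exact_mod_cast hx1)
    have hlog : Real.logb 2 x.length ≤ 2 * l := by
      rw [Real.logb_le_iff_le_rpow (by norm_num) (by exact_mod_cast hx1)]
      have : ((2 : ℝ) ^ (2 * (l : ℝ))) = ((2 ^ (2 * l) : ℕ) : ℝ) := by
        rw [show (2 * (l : ℝ)) = ((2 * l : ℕ) : ℝ) by push_cast; ring, Real.rpow_natCast]
        push_cast
        rfl
      rw [this]
      exact_mod_cast hx2
    have h4 : C * Real.logb 2 x.length + C ≤ c * (2 * l) + c := by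
      have := mul_le_mul_of_nonneg_right hc hlog0
      have := mul_le_mul_of_nonneg_left hlog (Nat.cast_nonneg (α := ℝ) c)
      linarith
    have h5 : (guesses M x cc T : ℝ) ≤ ((c * (2 * l + 1) : ℕ) : ℝ) := by
      push_cast
      have h6 : (guesses M x cc T : ℝ) ≤ C * Real.logb 2 x.length + C := h3
      linarith
    exact_mod_cast h5)
  rw [← ha, ← hq, ← hg] at key
  have hKD : a * (c * (2 * l + 1)) + q + g * (2 * (r * (2 * l + 3)) + 1) * M.k + 1 ≤
      D * (l + 1) := by
    rw [hD]
    have e1 : a * (c * (2 * l + 1)) ≤ 2 * a * c * (l + 1) := by nlinarith [Nat.zero_le (a * c)]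
    have e2 : q ≤ q * (l + 1) := Nat.le_mul_of_pos_right q (by omega)
    have e3 : g * (2 * (r * (2 * l + 3)) + 1) * M.k ≤ g * M.k * (6 * r + 1) * (l + 1) := by
      have : 2 * (r * (2 * l + 3)) + 1 ≤ (6 * r + 1) * (l + 1) := by nlinarith [Nat.zero_le (r * l)]
      calc g * (2 * (r * (2 * l + 3)) + 1) * M.k ≤ g * ((6 * r + 1) * (l + 1)) * M.k :=
            Nat.mul_le_mul_right _ (Nat.mul_le_mul_left _ this)
        _ = g * M.k * (6 * r + 1) * (l + 1) := by ring
    nlinarith
  have hlow : 2 ^ l ≤ 2 * (2 ^ l + 1 - r) := by omega
  have hfin : 2 ^ (l * r) ≤ 2 ^ r * (2 ^ (a * (c * (2 * l + 1))) * (D * (l + 1)) ^ r) := by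
    calc 2 ^ (l * r) = (2 ^ l) ^ r := pow_mul _ _ _
      _ ≤ (2 * (2 ^ l + 1 - r)) ^ r := Nat.pow_le_pow_left hlow r
      _ = 2 ^ r * (2 ^ l + 1 - r) ^ r := mul_pow _ _ _
      _ ≤ 2 ^ r * (2 ^ (a * (c * (2 * l + 1))) *
          (a * (c * (2 * l + 1)) + q + g * (2 * (r * (2 * l + 3)) + 1) * M.k + 1) ^ r) :=
          Nat.mul_le_mul_left _ key
      _ ≤ 2 ^ r * (2 ^ (a * (c * (2 * l + 1))) * (D * (l + 1)) ^ r) :=
          Nat.mul_le_mul_left _ (Nat.mul_le_mul_left _ (Nat.pow_le_pow_left hKD r))
  have e1 : l * r = 2 * a * c * l + l := by rw [hr]; ring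
  have e2 : 2 ^ r * (2 ^ (a * (c * (2 * l + 1))) * (D * (l + 1)) ^ r) =
      2 ^ (2 * a * c * l) * (2 ^ (3 * a * c + 1) * (D * (l + 1)) ^ r) := by
    have e3 : 2 ^ r * 2 ^ (a * (c * (2 * l + 1))) =
        2 ^ (2 * a * c * l) * 2 ^ (3 * a * c + 1) := by
      rw [← pow_add, ← pow_add]
      congr 1
      rw [hr]
      ring
    rw [← mul_assoc, e3, mul_assoc]
  rw [e1, e2, pow_add] at hfin
  exact absurd (Nat.le_of_mul_le_mul_left hfin (by positivity)) (not_le.mpr c3)

end LowerBound

/-- **`Q_{log n}` is a proper subclass of `Q_n`**, over every finite alphabet with at least two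
letters. Moreover one language of `Q_n` is in none of the classes `Q_{C log n + C}`. -/
theorem result (α : Type) [Finite α] [Nontrivial α] :
    QClass α (fun n => Real.logb 2 n) ⊂ QClass α (fun n => (n : ℝ)) ∧
    ∃ A ∈ QClass α (fun n => (n : ℝ)), ∀ C : ℝ, A ∉ QClass α (fun n => C * Real.logb 2 n + C) := by
  obtain ⟨one, zero, h10⟩ := exists_pair_ne α
  have hguess : ∀ (M : NTM α) (x : List α) (c : ℕ → Config M) (T : ℕ), guesses M x c T ≤ T := by
    classical
    intro M x c T
    unfold guesses
    exact (Finset.card_filter_le _ _).trans (by simp)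
  have hin : lang one zero ∈ QClass α (fun n => (n : ℝ)) := by
    refine ⟨machine one zero, fun x => Iff.rfl, ?_⟩
    rintro x ⟨c, T, h⟩
    have hT := machine_realTime h
    have hT' : (T : ℝ) ≤ (x.length : ℝ) := by exact_mod_cast hT
    have hg : (guesses (machine one zero) x c T : ℝ) ≤ T := by exact_mod_cast hguess _ x c T
    exact ⟨c, T, h, hT', hg.trans hT'⟩
  have hsub : QClass α (fun n => Real.logb 2 n) ⊆ QClass α (fun n => (n : ℝ)) := by
    rintro A ⟨M, h1, h2⟩
    refine ⟨M, h1, fun x hx => ?_⟩
    obtain ⟨c, T, h3, h4, _⟩ := h2 x hx
    have h5 : (guesses M x c T : ℝ) ≤ T := by exact_mod_cast hguess M x c T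
    exact ⟨c, T, h3, h4, h5.trans h4⟩
  have hsub1 : ∀ A, A ∈ QClass α (fun n => Real.logb 2 n) →
      A ∈ QClass α (fun n => (1 : ℝ) * Real.logb 2 n + 1) := by
    rintro A ⟨M, h1, h2⟩
    refine ⟨M, h1, fun x hx => ?_⟩
    obtain ⟨c, T, h3, h4, h5⟩ := h2 x hx
    refine ⟨c, T, h3, h4, ?_⟩
    have : (guesses M x c T : ℝ) ≤ Real.logb 2 x.length := h5
    show (guesses M x c T : ℝ) ≤ 1 * Real.logb 2 x.length + 1
    linarith
  refine ⟨⟨hsub, fun h => ?_⟩, lang one zero, hin, fun C => not_mem h10 C⟩
  exact not_mem h10 1 (hsub1 _ (h hin))

end Pool.Agent.Results.MP_18af55_lc.LogGuessesStrict
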